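import Mathlib
import Pool.Agent.H154Z.Col.Main

set_option autoImplicit false

namespace Pool.Agent.Results.MP_7d109d_lc.AGadgetGraph

open Pool.Agent.Helper672.Plain (LSet)
open Pool.Agent.H635Amen (ZF)
open Pool.Agent.H154Z.Clone (OmegaModel)
open Pool.Agent.H154Z.Col

universe u

/-- There is a Borel graph on the Cantor space with chromatic number three and countable
colouring number such that every `ω`-model of ZF that contains a `3`-colouring of the graph
contains a nonprincipal ultrafilter on the natural numbers. -/
theorem result : ∃ Γ : SimpleGraph (ℕ → Bool),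
    @MeasurableSet _ (borel ((ℕ → Bool) × (ℕ → Bool))) {p | Γ.Adj p.1 p.2} ∧
    Γ.chromaticNumber = 3 ∧ CountableColouringNumber Γ ∧
    ∀ (N : Type u) [LSet.Structure N], ZF N → OmegaModel N → HasColouring N Γ 3 →
      ∃ U : N, IsFreeUltrafilter U :=
  ⟨GG, gg_borel, gg_chromatic, gg_colnum, fun _ _ hz ho h =>
    Pool.Agent.Helper672.ZFA.H154.ultra_main hz.toZermelo ho h⟩

end Pool.Agent.Results.MP_7d109d_lc.AGadgetGraph
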